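import Pool.Agent.W912.LG.Defs

/-!
# S_NUM3
-/

set_option autoImplicit false

set_option maxHeartbeats 1000000

namespace Pool.Agent.W418.LG

open Pool.Agent.NPC Pool.Agent.H620R2.Gauge Pool.Agent.H622R2.Exp Pool.Agent.H622R2.Ckt
open Pool.Agent.W912.LG Pool.Agent.W912.EC
open Filter

theorem real_part (p q : ℕ) (c : ℝ) (hq : 0 < q) (hc : 1 ≤ c) (hpq : c * q < p) :
    ∃ m₀ : ℕ, ∀ m ≥ m₀, ∀ d s : ℕ, d = dd p q m → (s : ℝ) ≤ ((2 * m + 2 + d : ℕ) : ℝ) ^ c →
    (512 : ℝ) ≤ 2 ^ d ∧ 16 * (s : ℝ) ≤ 2 ^ d ∧ (d : ℝ) < m ∧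
      (d : ℝ) ≤ (p : ℝ) / q * Real.logb 2 m ∧
    4 * ((2 * 2 ^ d) * (m + 1) + 1 : ℝ) ^ s * ((m : ℝ) + m + 8) ^ (4 * m + 4) *
      Real.exp (-(2 ^ d : ℝ) / 4096) ≤ (1 / 2) ^ m := by
  have hqR : (0 : ℝ) < q := by exact_mod_cast hq
  obtain ⟨r, hr⟩ : ∃ r : ℝ, r = (p : ℝ) / q := ⟨_, rfl⟩
  have hcr : c < r := by
    rw [hr, lt_div_iff₀ hqR]; exact hpq
  have hr0 : 0 < r := by linarith
  obtain ⟨δ, hδ⟩ : ∃ δ : ℝ, δ = r - c := ⟨_, rfl⟩
  have hδ0 : 0 < δ := by rw [hδ]; linarith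
  obtain ⟨F, hF⟩ : ∃ F : ℝ, F = (2 : ℝ) ^ (r + 1) := ⟨_, rfl⟩
  have hF0 : 0 < F := by rw [hF]; positivity
  obtain ⟨V, hV⟩ : ∃ V : ℝ, V = (5 : ℝ) ^ c := ⟨_, rfl⟩
  have hV0 : 0 < V := by rw [hV]; positivity
  obtain ⟨M, hM⟩ : ∃ M : ℝ, M = V * (r + 3) + 12 := ⟨_, rfl⟩
  have hM0 : 0 < M := by rw [hM]; positivity
  obtain ⟨K, hK⟩ : ∃ K : ℝ, K = 4096 * F * M := ⟨_, rfl⟩
  have hK0 : 0 < K := by rw [hK]; positivity
  have hl2 : 0 < Real.log 2 := Real.log_pos (by norm_num)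
  obtain ⟨N, hN⟩ : ∃ N : ℝ, N = r / Real.log 2 + 1 := ⟨_, rfl⟩
  have hN0 : 0 < N := by rw [hN]; positivity
  have h1 := (isLittleO_log_rpow_atTop hδ0).bound (c := 1 / K) (by positivity)
  have h2 := (isLittleO_log_rpow_atTop (r := 1) one_pos).bound (c := 1 / N) (by positivity)
  obtain ⟨x1, hx1⟩ := eventually_atTop.1 (h1.and h2)
  refine ⟨max 8 ⌈x1⌉₊, fun m hm d s hd hs => ?_⟩
  obtain ⟨x, hx⟩ : ∃ x : ℝ, x = (m : ℝ) := ⟨_, rfl⟩
  have hx8 : 8 ≤ x := by
    rw [hx]; exact_mod_cast (le_max_left _ _).trans hm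
  have hxx1 : x1 ≤ x := by
    have e1 : (⌈x1⌉₊ : ℝ) ≤ m := by exact_mod_cast (le_max_right _ _).trans hm
    rw [hx]
    exact (Nat.le_ceil _).trans e1
  have hx0 : 0 < x := by linarith
  obtain ⟨g1, g2⟩ := hx1 x hxx1
  obtain ⟨l, hl⟩ : ∃ l : ℝ, l = Real.log x := ⟨_, rfl⟩
  have hl1 : 1 ≤ l := by
    rw [hl, Real.le_log_iff_exp_le hx0]
    have := Real.exp_one_lt_d9
    linarith
  have hl0 : 0 < l := by linarith
  rw [← hl, Real.norm_of_nonneg hl0.le, Real.norm_of_nonneg (Real.rpow_nonneg hx0.le _)] at g1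
  rw [← hl, Real.norm_of_nonneg hl0.le, Real.norm_of_nonneg (Real.rpow_nonneg hx0.le _),
    Real.rpow_one] at g2
  have g1' : K * l ≤ x ^ δ := by
    rw [div_mul_eq_mul_div, one_mul, le_div_iff₀ hK0] at g1
    linarith
  have g2' : N * l ≤ x := by
    rw [div_mul_eq_mul_div, one_mul, le_div_iff₀ hN0] at g2
    linarith
  -- logarithms
  obtain ⟨b, hb⟩ : ∃ b : ℝ, b = Real.logb 2 x := ⟨_, rfl⟩
  have hbl : b = l / Real.log 2 := by rw [hb, hl, Real.logb]
  have h2b : (2 : ℝ) ^ b = x := by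
    rw [hb]; exact Real.rpow_logb (by norm_num) (by norm_num) hx0
  have hb0 : 0 ≤ b := by rw [hbl]; positivity
  obtain ⟨L, hL⟩ : ∃ L : ℕ, L = Nat.log 2 m := ⟨_, rfl⟩
  have hLb : (L : ℝ) ≤ b := by
    rw [hL, hb, hx]
    exact_mod_cast Real.natLog_le_logb m 2
  have hbL : b ≤ L + 1 := by
    have e1 : m < 2 ^ (L + 1) := by rw [hL]; exact Nat.lt_pow_succ_log_self (by norm_num) m
    have e2 : x ≤ (2 : ℝ) ^ (((L + 1 : ℕ)) : ℝ) := by
      rw [Real.rpow_natCast, hx]; exact_mod_cast e1.le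
    rw [hb]
    have e3 := Real.logb_le_logb_of_le (b := 2) (by norm_num) hx0 e2
    rw [Real.logb_rpow (by norm_num) (by norm_num)] at e3
    push_cast at e3
    exact e3
  have hdle : (d : ℝ) ≤ r * L := by
    rw [hd, dd, ← hL, hr]
    have := Nat.cast_div_le (α := ℝ) (m := p * L) (n := q)
    push_cast at this
    rw [div_mul_eq_mul_div]
    exact this
  have hdge : r * L ≤ d + 1 := by
    have e1 : p * L < q * (d + 1) := by
      rw [hd, dd, ← hL]
      exact Nat.lt_mul_div_succ _ hq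
    have e2 : (p : ℝ) * L ≤ q * (d + 1) := by exact_mod_cast e1.le
    rw [hr, div_mul_eq_mul_div, div_le_iff₀ hqR]
    linarith
  have hdb : (d : ℝ) ≤ r * b := hdle.trans (mul_le_mul_of_nonneg_left hLb hr0.le)
  have hbd : r * b - (r + 1) ≤ d := by
    have : r * b ≤ r * (L + 1) := mul_le_mul_of_nonneg_left hbL hr0.le
    linarith
  -- size of `2 ^ d`
  obtain ⟨D, hD⟩ : ∃ D : ℝ, D = (2 : ℝ) ^ d := ⟨_, rfl⟩
  have hD1 : 1 ≤ D := by rw [hD]; exact one_le_pow₀ (by norm_num)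
  have hxr : x ^ r = (2 : ℝ) ^ (r * b) := by
    rw [mul_comm, Real.rpow_mul (by norm_num), h2b]
  have hDle : D ≤ x ^ r := by
    rw [hxr, hD, ← Real.rpow_natCast]
    exact Real.rpow_le_rpow_of_exponent_le (by norm_num) hdb
  have hDge : x ^ r ≤ F * D := by
    have e1 : x ^ r = F * (2 : ℝ) ^ (r * b - (r + 1)) := by
      rw [hF, ← Real.rpow_add (by norm_num), hxr]
      congr 1; ring
    rw [e1]
    refine mul_le_mul_of_nonneg_left ?_ hF0.le
    rw [hD, ← Real.rpow_natCast]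
    exact Real.rpow_le_rpow_of_exponent_le (by norm_num) hbd
  obtain ⟨W, hW⟩ : ∃ W : ℝ, W = x ^ c := ⟨_, rfl⟩
  have hWx : x ≤ W := by
    rw [hW]
    calc x = x ^ (1 : ℝ) := (Real.rpow_one x).symm
      _ ≤ x ^ c := Real.rpow_le_rpow_of_exponent_le (by linarith) hc
  have hxrW : x ^ r = W * x ^ δ := by
    rw [hW, ← Real.rpow_add hx0]; congr 1; rw [hδ]; ring
  have hmain : 4096 * M * W * l ≤ D := by
    have e1 : W * (K * l) ≤ F * D := by
      calc W * (K * l) ≤ W * x ^ δ := mul_le_mul_of_nonneg_left g1' (by linarith)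
        _ = x ^ r := hxrW.symm
        _ ≤ F * D := hDge
    have e2 : F * (4096 * M * W * l) ≤ F * D := by
      rw [hK] at e1
      linarith
    exact le_of_mul_le_mul_left e2 hF0
  have hdm : (d : ℝ) < x := by
    have e1 : r * b + l ≤ x := by
      have : N * l = r * b + l := by rw [hN, hbl]; ring
      rw [← this]; exact g2'
    linarith
  have hs5 : (s : ℝ) ≤ V * W := by
    refine hs.trans ?_
    have e1 : ((2 * m + 2 + d : ℕ) : ℝ) ≤ 5 * x := by
      push_cast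
      rw [← hx]
      linarith
    calc ((2 * m + 2 + d : ℕ) : ℝ) ^ c ≤ (5 * x) ^ c :=
          Real.rpow_le_rpow (Nat.cast_nonneg _) e1 (by linarith)
      _ = V * W := by rw [Real.mul_rpow (by norm_num) hx0.le, hV, hW]
  have hWl : 1 ≤ W * l := by
    have e1 : 1 * 1 ≤ W * l := mul_le_mul (by linarith) hl1 zero_le_one (by linarith)
    linarith
  have hMWl : M ≤ M * (W * l) := le_mul_of_one_le_right hM0.le hWl
  refine ⟨?_, ?_, ?_, ?_, ?_⟩
  · rw [← hD]
    have e1 : (12 : ℝ) ≤ M := by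
      have e2 : 0 < V * (r + 3) := mul_pos hV0 (by linarith)
      rw [hM]; linarith
    have e3 : 4096 * M * W * l = 4096 * (M * (W * l)) := by ring
    linarith
  · rw [← hD]
    have e1 : V ≤ M := by
      have e2 : 0 < V * r := mul_pos hV0 hr0
      have e3 : V * (r + 3) = V * r + 3 * V := by ring
      rw [hM, e3]; linarith
    have hW0 : 0 < W := by linarith
    have e2 : V * W ≤ M * W := mul_le_mul_of_nonneg_right e1 hW0.le
    have e3 : M * W ≤ M * W * l := le_mul_of_one_le_right (mul_pos hM0 hW0).le hl1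
    have e4 : 4096 * M * W * l = 4096 * (M * W * l) := by ring
    have e5 : 0 < M * W * l := mul_pos (mul_pos hM0 hW0) hl0
    linarith
  · rw [← hx]; exact hdm
  · rw [← hx, ← hb, ← hr]; exact hdb
  · rw [← hD, ← hx]
    obtain ⟨A, hA⟩ : ∃ A : ℝ, A = 2 * D * (x + 1) + 1 := ⟨_, rfl⟩
    obtain ⟨B, hB⟩ : ∃ B : ℝ, B = x + x + 8 := ⟨_, rfl⟩
    rw [← hA, ← hB]
    have hA0 : 0 < A := by rw [hA]; positivity
    have hB0 : 0 < B := by rw [hB]; positivity
    have hlogA : Real.log A ≤ (r + 3) * l := by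
      have hxr1 : 1 ≤ x ^ r := Real.one_le_rpow (by linarith) hr0.le
      have e1 : A ≤ x ^ r * x ^ (3 : ℕ) := by
        have e2 : A ≤ x ^ r * (2 * (x + 1) + 1) := by
          rw [hA]
          have e3 : D * (x + 1) ≤ x ^ r * (x + 1) := mul_le_mul_of_nonneg_right hDle (by linarith)
          have e4 : x ^ r * (2 * (x + 1) + 1) = 2 * (x ^ r * (x + 1)) + x ^ r := by ring
          have e5 : 2 * D * (x + 1) + 1 = 2 * (D * (x + 1)) + 1 := by ring
          linarith
        refine e2.trans (mul_le_mul_of_nonneg_left ?_ (by linarith))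
        have e6 : 8 * x ≤ x * x := mul_le_mul_of_nonneg_right hx8 hx0.le
        have e7 : 8 * x * x ≤ x * x * x := mul_le_mul_of_nonneg_right e6 hx0.le
        have e8 : x ^ 3 = x * x * x := by ring
        have e9 : 8 * x * x = 8 * (x * x) := by ring
        linarith
      have e3 := Real.log_le_log hA0 e1
      rw [Real.log_mul (by positivity) (by positivity), Real.log_rpow hx0, Real.log_pow,
        ← hl] at e3
      push_cast at e3
      linarith
    have hlogB : Real.log B ≤ 2 * l := by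
      have e1 : B ≤ x ^ 2 := by
        have e6 : 8 * x ≤ x * x := mul_le_mul_of_nonneg_right hx8 hx0.le
        have e8 : x ^ 2 = x * x := by ring
        rw [hB]; linarith
      have e3 := Real.log_le_log hB0 e1
      rw [Real.log_pow, ← hl] at e3
      push_cast at e3
      linarith
    have hlogA0 : 0 ≤ Real.log A := Real.log_nonneg (by
      have e1 : 0 ≤ 2 * D * (x + 1) := mul_nonneg (by linarith) (by linarith)
      rw [hA]; linarith)
    have hlog4 : Real.log 4 ≤ W * l := by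
      have e1 : Real.log 4 ≤ l := by
        rw [hl]; exact Real.log_le_log (by norm_num) (by linarith)
      have e2 : l ≤ W * l := le_mul_of_one_le_left hl0.le (by linarith)
      linarith
    have hlog2 : x * Real.log 2 ≤ W * l := by
      have e1 : Real.log 2 ≤ l := by
        rw [hl]; exact Real.log_le_log (by norm_num) (by linarith)
      exact mul_le_mul hWx e1 hl2.le (by linarith)
    have hsA : (s : ℝ) * Real.log A ≤ V * (r + 3) * (W * l) := by
      calc (s : ℝ) * Real.log A ≤ (V * W) * ((r + 3) * l) :=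
            mul_le_mul hs5 hlogA hlogA0 (mul_nonneg hV0.le (by linarith))
        _ = V * (r + 3) * (W * l) := by ring
    have hmB : ((4 * m + 4 : ℕ) : ℝ) * Real.log B ≤ 10 * (W * l) := by
      have e1 : ((4 * m + 4 : ℕ) : ℝ) ≤ 5 * W := by
        push_cast; rw [← hx]; linarith
      have e0 : 0 ≤ Real.log B := Real.log_nonneg (by rw [hB]; linarith)
      calc ((4 * m + 4 : ℕ) : ℝ) * Real.log B ≤ (5 * W) * (2 * l) :=
            mul_le_mul e1 hlogB e0 (by linarith)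
        _ = 10 * (W * l) := by ring
    have hlhs : 4 * A ^ s * B ^ (4 * m + 4) * Real.exp (-D / 4096) =
        Real.exp (Real.log 4 + (s : ℝ) * Real.log A + ((4 * m + 4 : ℕ) : ℝ) * Real.log B
          - D / 4096) := by
      have e1 : Real.exp (Real.log 4) = 4 := Real.exp_log (by norm_num)
      have e2 : Real.exp ((s : ℝ) * Real.log A) = A ^ s := by
        rw [Real.exp_nat_mul, Real.exp_log hA0]
      have e3 : Real.exp (((4 * m + 4 : ℕ) : ℝ) * Real.log B) = B ^ (4 * m + 4) := by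
        rw [Real.exp_nat_mul, Real.exp_log hB0]
      rw [sub_eq_add_neg, Real.exp_add, Real.exp_add, Real.exp_add, e1, e2, e3, neg_div]
    have hrhs : ((1 : ℝ) / 2) ^ m = Real.exp (-(x * Real.log 2)) := by
      rw [hx, Real.exp_neg, Real.exp_nat_mul, Real.exp_log (by norm_num), one_div, inv_pow]
    rw [hlhs, hrhs]
    refine Real.exp_le_exp.2 ?_
    have e5 : M * (W * l) ≤ D / 4096 := by
      rw [le_div_iff₀ (by norm_num)]
      linarith
    have e6 : M * (W * l) = V * (r + 3) * (W * l) + 12 * (W * l) := by rw [hM]; ring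
    linarith

theorem num3 : S_NUM3 := by
  intro p q c hq hc hpq
  obtain ⟨m₀, hm₀⟩ := real_part p q c hq hc hpq
  refine ⟨m₀, fun m hm d s hd hs => ?_⟩
  obtain ⟨h1, h2, h3, h4, h5⟩ := hm₀ m hm d s hd hs
  refine ⟨by exact_mod_cast h1, by exact_mod_cast h2, by exact_mod_cast h3, h4, ?_⟩
  have e : ((nC m m : ℕ) : ℝ) = ((m : ℝ) + m + 8) ^ (4 * m + 4) := by
    unfold nC
    push_cast
    ring
  rw [e]
  exact h5

end Pool.Agent.W418.LG
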